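import Pool.Agent.helper27.PC2.Stmt2
import Pool.Agent.helper31.PC.LEN

/-!
# PC project, module CLS: every signed permutation is conjugate to a standard one
-/

namespace Pool.Agent.helper27.PC

open Finset

section CLSa

variable {n : ℕ}

/-- `w` acts by cycles with the given lengths and signs (`true` is positive) from the coordinate `k` on -/
def CLS_B (w : Equiv.Perm (Fin n × Bool)) : ℕ → List (ℕ × Bool) → Prop
  | _, [] => True
  | k, b :: l => (∀ x : Fin n × Bool, k ≤ x.1.val → x.1.val + 1 < k + b.1 →
        (w x).1.val = x.1.val + 1 ∧ (w x).2 = x.2) ∧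
      (∀ x : Fin n × Bool, k ≤ x.1.val → x.1.val + 1 = k + b.1 →
        (w x).1.val = k ∧ (w x).2 = if b.2 then x.2 else !x.2) ∧
      CLS_B w (k + b.1) l

theorem CLS_unique (w w' : Equiv.Perm (Fin n × Bool)) (l : List (ℕ × Bool)) :
    ∀ k, CLS_B w k l → CLS_B w' k l → ∀ x : Fin n × Bool, k ≤ x.1.val →
      x.1.val < k + (l.map Prod.fst).sum → w x = w' x := by
  induction l with
  | nil => intro k _ _ x h1 h2; simp at h2; omega
  | cons b l ih =>
    rintro k ⟨a1, a2, a3⟩ ⟨b1, b2, b3⟩ x h1 h2
    rw [List.map_cons, List.sum_cons] at h2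
    by_cases h3 : x.1.val + 1 < k + b.1
    · obtain ⟨c1, c2⟩ := a1 x h1 h3
      obtain ⟨d1, d2⟩ := b1 x h1 h3
      exact Prod.ext (Fin.ext (by rw [c1, d1])) (by rw [c2, d2])
    · by_cases h4 : x.1.val + 1 = k + b.1
      · obtain ⟨c1, c2⟩ := a2 x h1 h4
        obtain ⟨d1, d2⟩ := b2 x h1 h4
        exact Prod.ext (Fin.ext (by rw [c1, d1])) (by rw [c2, d2])
      · exact ih (k + b.1) a3 b3 x (by omega) (by omega)

theorem CLS_congr (w w' : Equiv.Perm (Fin n × Bool)) (l : List (ℕ × Bool)) :
    ∀ k, (∀ x : Fin n × Bool, k ≤ x.1.val → x.1.val < k + (l.map Prod.fst).sum → w' x = w x) →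
      CLS_B w k l → CLS_B w' k l := by
  induction l with
  | nil => intro k _ _; trivial
  | cons b l ih =>
    rintro k h ⟨h1, h2, h3⟩
    rw [List.map_cons, List.sum_cons] at h
    refine ⟨?_, ?_, ?_⟩
    · intro x hx hx'
      rw [h x hx (by omega)]
      exact h1 x hx hx'
    · intro x hx hx'
      rw [h x hx (by omega)]
      exact h2 x hx hx'
    · exact ih (k + b.1) (fun x hx hx' => h x (by omega) (by omega)) h3

theorem CLS_append (w : Equiv.Perm (Fin n × Bool)) (l l' : List (ℕ × Bool)) :
    ∀ k, CLS_B w k l → CLS_B w (k + (l.map Prod.fst).sum) l' → CLS_B w k (l ++ l') := by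
  induction l with
  | nil => intro k _ h; simpa using h
  | cons b l ih =>
    rintro k ⟨h1, h2, h3⟩ h'
    refine ⟨h1, h2, ih (k + b.1) h3 ?_⟩
    rw [List.map_cons, List.sum_cons, ← Nat.add_assoc] at h'
    exact h'

theorem CLS_of_Blk (w : Equiv.Perm (Fin n × Bool)) (l : List ℕ) :
    ∀ k, LEN_Blk w k l → CLS_B w k (l.map fun a => (a, false)) := by
  induction l with
  | nil => intro k _; trivial
  | cons a l ih =>
    rintro k ⟨h1, h2, h3⟩
    refine ⟨h1, ?_, ih (k + a) h3⟩
    intro x _ hx
    simpa using h2 x hx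

/-! ### the standard elements -/

theorem CLS_stdfix (l : List ℕ) (hl : ∀ a ∈ l, 1 ≤ a) : ∀ k, k + l.sum ≤ n →
    ∀ x : Fin n × Bool, k + l.sum ≤ x.1.val → LEN_w n (stdWord k l) x = x := by
  induction l with
  | nil =>
    intro k _ x _
    simp [stdWord, LEN_w]
  | cons a l ih =>
    intro k hk x hx
    rw [List.sum_cons] at hk hx
    have ha : 1 ≤ a := hl a (by simp)
    have e : LEN_w n (stdWord k (a :: l)) x =
        LEN_w n (blockWord k a) (LEN_w n (stdWord (k + a) l) x) := LEN_w_append _ _ x
    rw [e, ih (fun b hb => hl b (by simp [hb])) (k + a) (by omega) x (by omega)]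
    obtain ⟨b1, b2⟩ := LEN_block (n := n) k a ha (by omega) x
    refine Prod.ext (Fin.ext ?_) ?_
    · rw [b1]
      split_ifs <;> omega
    · rw [b2, if_neg (by omega)]

theorem CLS_range' (k m : ℕ) (hm : k + m < n) (x : Fin n × Bool) :
    (LEN_w n (List.range' (k + 1) m) x).1.val =
      (if x.1.val < k then x.1.val else if x.1.val < k + m then x.1.val + 1
        else if x.1.val = k + m then k else x.1.val) ∧
    (LEN_w n (List.range' (k + 1) m) x).2 = x.2 := by
  induction m generalizing x with
  | zero =>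
    simp only [List.range'_zero, LEN_w_nil, and_true]
    split_ifs <;> omega
  | succ m ih =>
    rw [List.range'_1_concat, LEN_w_append, LEN_w_single]
    obtain ⟨a1, a2⟩ := LEN_g_succ (n := n) (i := k + m) (by omega) x
    rw [show k + 1 + m = k + m + 1 by ring]
    obtain ⟨b1, b2⟩ := ih (by omega) (((g n (k + m + 1) : W n) : Equiv.Perm (Fin n × Bool)) x)
    rw [b1, b2, a1, a2]
    refine ⟨?_, rfl⟩
    split_ifs <;> omega

theorem CLS_pos (l : List ℕ) (hl : ∀ a ∈ l, 1 ≤ a) : ∀ k, k + l.sum ≤ n →
    (∀ x : Fin n × Bool, x.1.val < k → LEN_w n (posWord k l) x = x) ∧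
    (∀ x : Fin n × Bool, k ≤ x.1.val → k ≤ (LEN_w n (posWord k l) x).1.val) ∧
    CLS_B (LEN_w n (posWord k l)) k (l.map fun a => (a, true)) := by
  induction l with
  | nil =>
    intro k _
    refine ⟨fun x _ => ?_, fun x hx => ?_, trivial⟩
    · simp [posWord, LEN_w]
    · simpa [posWord, LEN_w] using hx
  | cons a l ih =>
    intro k hk
    rw [List.sum_cons] at hk
    have ha : 1 ≤ a := hl a (by simp)
    obtain ⟨i1, i2, i3⟩ := ih (fun b hb => hl b (by simp [hb])) (k + a) (by omega)
    have hb := fun x => CLS_range' (n := n) k (a - 1) (by omega) x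
    have hfix : ∀ x : Fin n × Bool, (x.1.val < k ∨ k + a ≤ x.1.val) →
        LEN_w n (List.range' (k + 1) (a - 1)) x = x := by
      intro x hx
      obtain ⟨b1, b2⟩ := hb x
      refine Prod.ext (Fin.ext ?_) b2
      rw [b1]
      split_ifs <;> omega
    have hw : ∀ x, LEN_w n (posWord k (a :: l)) x =
        LEN_w n (List.range' (k + 1) (a - 1)) (LEN_w n (posWord (k + a) l) x) := by
      intro x
      exact LEN_w_append _ _ x
    refine ⟨?_, ?_, ?_⟩
    · intro x hx
      rw [hw, i1 x (by omega), hfix x (Or.inl hx)]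
    · intro x hx
      rw [hw]
      by_cases h : x.1.val < k + a
      · rw [i1 x h]
        obtain ⟨b1, b2⟩ := hb x
        rw [b1]
        split_ifs <;> omega
      · have := i2 x (by omega)
        rw [hfix _ (Or.inr this)]
        omega
    · refine ⟨?_, ?_, ?_⟩
      · intro x hx hx'
        simp only at hx'
        rw [hw, i1 x (by omega)]
        obtain ⟨b1, b2⟩ := hb x
        rw [b1, b2, if_neg (by omega), if_pos (by omega)]
        exact ⟨rfl, rfl⟩
      · intro x hx hx'
        simp only at hx'
        rw [hw, i1 x (by omega)]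
        obtain ⟨b1, b2⟩ := hb x
        rw [b1, b2, if_neg (by omega), if_neg (by omega), if_pos (by omega)]
        exact ⟨rfl, by simp⟩
      · refine CLS_congr (LEN_w n (posWord (k + a) l)) _ _ (k + a) ?_ i3
        intro x hx _
        rw [hw]
        exact hfix _ (Or.inr (i2 x hx))

theorem CLS_std2 (β α : List ℕ) (h : Typ n β α) :
    CLS_B ((std2 n β α : W n) : Equiv.Perm (Fin n × Bool)) 0
      (β.map (fun a => (a, false)) ++ α.map (fun a => (a, true))) := by
  obtain ⟨h1, -, h3, h4⟩ := h
  have e : ((std2 n β α : W n) : Equiv.Perm (Fin n × Bool)) = LEN_w n (word2 β α) := rfl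
  have hw : ∀ x, LEN_w n (word2 β α) x =
      LEN_w n (stdWord 0 β) (LEN_w n (posWord β.sum α) x) := fun x => LEN_w_append _ _ x
  have hfst : ∀ (l : List ℕ) (s : Bool), (l.map fun a => (a, s)).map Prod.fst = l := by
    intro l s
    rw [List.map_map]
    simp [Function.comp_def]
  obtain ⟨-, -, s3⟩ := LEN_std (n := n) β h1 0 (by omega)
  obtain ⟨p1, p2, p3⟩ := CLS_pos (n := n) α h3 β.sum (by omega)
  rw [e]
  apply CLS_append
  · refine CLS_congr (LEN_w n (stdWord 0 β)) _ _ 0 ?_ (CLS_of_Blk _ _ _ s3)
    intro x _ hx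
    rw [hfst, Nat.zero_add] at hx
    rw [hw, p1 x hx]
  · rw [hfst, Nat.zero_add]
    refine CLS_congr (LEN_w n (posWord β.sum α)) _ _ β.sum ?_ p3
    intro x hx _
    rw [hw]
    exact CLS_stdfix β h1 0 (by omega) _ (by have := p2 x hx; omega)

/-! ### orbits -/

/-- orbit of a point as a list -/
noncomputable def CLS_o (p : Equiv.Perm (Fin n)) (x : Fin n) : List (Fin n) :=
  (List.range (Function.minimalPeriod p x)).map fun j => (p ^ j) x

theorem CLS_per_pos (p : Equiv.Perm (Fin n)) (x : Fin n) : 0 < Function.minimalPeriod p x := by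
  rw [Function.minimalPeriod_pos_iff_mem_periodicPts]
  refine Function.mk_mem_periodicPts (n := orderOf p) (orderOf_pos p) ?_
  show (⇑p)^[orderOf p] x = x
  rw [Equiv.Perm.iterate_eq_pow, pow_orderOf_eq_one]
  rfl

theorem CLS_per (p : Equiv.Perm (Fin n)) (x : Fin n) : (p ^ Function.minimalPeriod p x) x = x := by
  rw [← Equiv.Perm.iterate_eq_pow]
  exact Function.iterate_minimalPeriod

theorem CLS_o_nodup (p : Equiv.Perm (Fin n)) (x : Fin n) : (CLS_o p x).Nodup := by
  unfold CLS_o
  apply List.Nodup.map_on _ List.nodup_range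
  intro i hi j hj h
  have h' : (⇑p)^[i] x = (⇑p)^[j] x := by
    rw [Equiv.Perm.iterate_eq_pow, Equiv.Perm.iterate_eq_pow]; exact h
  exact Function.iterate_injOn_Iio_minimalPeriod (List.mem_range.1 hi) (List.mem_range.1 hj) h'

theorem CLS_o_closed (p : Equiv.Perm (Fin n)) (x y : Fin n) (h : p y ∈ CLS_o p x) :
    y ∈ CLS_o p x := by
  unfold CLS_o at h ⊢
  rw [List.mem_map] at h ⊢
  obtain ⟨j, hj, hjy⟩ := h
  have hp := CLS_per_pos p x
  rcases Nat.eq_zero_or_pos j with h0 | h0
  · subst h0
    refine ⟨Function.minimalPeriod p x - 1, List.mem_range.2 (by omega), ?_⟩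
    apply p.injective
    rw [← hjy, pow_zero, Equiv.Perm.one_apply, ← Equiv.Perm.mul_apply, ← pow_succ',
      Nat.sub_add_cancel hp]
    exact CLS_per p x
  · refine ⟨j - 1, List.mem_range.2 (by have := List.mem_range.1 hj; omega), ?_⟩
    apply p.injective
    rw [← hjy, ← Equiv.Perm.mul_apply, ← pow_succ', Nat.sub_add_cancel h0]

theorem CLS_o_mem (p : Equiv.Perm (Fin n)) (U : Finset (Fin n)) (hU : ∀ x ∈ U, p x ∈ U)
    (x : Fin n) (hx : x ∈ U) : ∀ y ∈ CLS_o p x, y ∈ U := by
  intro y hy
  unfold CLS_o at hy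
  rw [List.mem_map] at hy
  obtain ⟨j, -, rfl⟩ := hy
  induction j with
  | zero => simpa using hx
  | succ j ih =>
    rw [pow_succ', Equiv.Perm.mul_apply]
    exact hU _ ih

theorem CLS_orbits (p : Equiv.Perm (Fin n)) : ∀ (m : ℕ) (U : Finset (Fin n)), U.card = m →
    (∀ x ∈ U, p x ∈ U) → ∃ L : List (Fin n), (∀ x ∈ L, x ∈ U) ∧
      L.Pairwise (fun x y => Function.minimalPeriod p x ≤ Function.minimalPeriod p y) ∧
      (L.flatMap (CLS_o p)).Nodup ∧ ∀ y, y ∈ L.flatMap (CLS_o p) ↔ y ∈ U := by
  intro m
  induction m using Nat.strong_induction_on with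
  | _ m ih =>
    intro U hm hU
    rcases U.eq_empty_or_nonempty with h0 | h0
    · subst h0
      exact ⟨[], by simp, by simp, by simp, by simp⟩
    · obtain ⟨x, hx, hmin⟩ := Finset.exists_min_image U (fun x => Function.minimalPeriod p x) h0
      have hxo : x ∈ CLS_o p x := by
        unfold CLS_o
        rw [List.mem_map]
        exact ⟨0, List.mem_range.2 (CLS_per_pos p x), by simp⟩
      set U' : Finset (Fin n) := U.filter fun y => y ∉ CLS_o p x with hU'
      have hmem : ∀ y, y ∈ U' ↔ y ∈ U ∧ y ∉ CLS_o p x := fun y => by rw [hU', mem_filter]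
      have hcard : U'.card < m := by
        rw [← hm]
        apply card_lt_card
        refine ⟨filter_subset _ _, fun h => ?_⟩
        exact ((hmem x).1 (h hx)).2 hxo
      obtain ⟨L, h1, h2, h3, h4⟩ := ih U'.card hcard U' rfl (by
        intro y hy
        rw [hmem] at hy ⊢
        exact ⟨hU y hy.1, fun h => hy.2 (CLS_o_closed p x y h)⟩)
      refine ⟨x :: L, ?_, ?_, ?_, ?_⟩
      · intro y hy
        rcases List.mem_cons.1 hy with rfl | hy
        · exact hx
        · exact ((hmem y).1 (h1 y hy)).1
      · rw [List.pairwise_cons]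
        exact ⟨fun y hy => hmin y ((hmem y).1 (h1 y hy)).1, h2⟩
      · rw [List.flatMap_cons, List.nodup_append]
        refine ⟨CLS_o_nodup p x, h3, ?_⟩
        intro a ha b hb hab
        subst hab
        exact ((hmem a).1 ((h4 a).1 hb)).2 ha
      · intro y
        rw [List.flatMap_cons, List.mem_append, h4, hmem]
        constructor
        · rintro (h | h)
          · exact CLS_o_mem p U hU x hx y h
          · exact h.1
        · intro h
          by_cases h5 : y ∈ CLS_o p x
          · exact Or.inl h5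
          · exact Or.inr ⟨h, h5⟩

/-! ### signs -/

theorem CLS_ng (w : W n) (i : Fin n) (z : Fin n × Bool) (h : w.1 (i, true) = z) :
    w.1 (i, false) = (z.1, !z.2) := by
  have := (mem_W.mp w.2) (i, true)
  simp only [Bool.not_true] at this
  rw [this, h]

theorem CLS_ng' (w : W n) (i : Fin n) (z : Fin n × Bool) (h : w.1 (i, false) = z) :
    w.1 (i, true) = (z.1, !z.2) := by
  have := (mem_W.mp w.2) (i, false)
  simp only [Bool.not_false] at this
  rw [this, h]

theorem CLS_pow (w : W n) (j : ℕ) (x : Fin n) (b : Bool) :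
    ((w ^ j).1 (x, b)).1 = ((HREL_pi n w) ^ j) x := by
  rw [GEN_fst, ← map_pow]
  rfl

theorem CLS_sgn (w : W n) (j : ℕ) (x : Fin n) :
    (w ^ j).1 (x, true) = (x, false) ↔
      (w ^ j).1 ((w.1 (x, true)).1, true) = ((w.1 (x, true)).1, false) := by
  have hc : ∀ z, (w ^ j).1 (w.1 z) = w.1 ((w ^ j).1 z) := by
    intro z
    have : w ^ j * w = w * w ^ j := by rw [← pow_succ, ← pow_succ']
    exact congrArg (fun u : W n => u.1 z) this
  rcases hyc : w.1 (x, true) with ⟨y, c⟩
  have hf : w.1 (x, false) = (y, !c) := CLS_ng w x (y, c) hyc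
  have e1 : (w ^ j).1 (x, true) = (x, false) ↔ (w ^ j).1 (y, c) = (y, !c) := by
    rw [← hyc, hc]
    constructor
    · intro h
      rw [h, hf]
    · intro h
      rw [← hf] at h
      exact w.1.injective h
  rw [e1]
  cases c
  · simp only [Bool.not_false]
    constructor
    · intro h
      simpa using CLS_ng' (w ^ j) y _ h
    · intro h
      simpa using CLS_ng (w ^ j) y _ h
  · simp

/-- negative orbits -/
def CLS_N (w : W n) (x : Fin n) : Prop := ∃ j : ℕ, (w ^ j).1 (x, true) = (x, false)

theorem CLS_N_iff (w : W n) (x : Fin n) : CLS_N w (HREL_pi n w x) ↔ CLS_N w x := by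
  unfold CLS_N
  rw [HREL_pi_apply]
  constructor
  · rintro ⟨j, hj⟩
    exact ⟨j, (CLS_sgn w j x).2 hj⟩
  · rintro ⟨j, hj⟩
    exact ⟨j, (CLS_sgn w j x).1 hj⟩

open Classical in
theorem CLS_turn (w : W n) (x : Fin n) :
    (w ^ Function.minimalPeriod (HREL_pi n w) x).1 (x, true) = (x, decide (¬ CLS_N w x)) := by
  set a := Function.minimalPeriod (HREL_pi n w) x with ha
  have h1 : ((w ^ a).1 (x, true)).1 = x := by
    rw [CLS_pow]
    exact CLS_per _ x
  rcases hyc : (w ^ a).1 (x, true) with ⟨y, c⟩
  rw [hyc] at h1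
  simp only at h1
  subst h1
  refine Prod.ext rfl ?_
  show c = decide (¬ CLS_N w y)
  cases c
  · have : CLS_N w y := ⟨a, hyc⟩
    simp [this]
  · have : ¬ CLS_N w y := by
      rintro ⟨j, hj⟩
      have h2 : (HREL_pi n w) ^ j = (HREL_pi n w) ^ j := rfl
      have h3 : ((HREL_pi n w) ^ j) y = y := by
        rw [← CLS_pow w j y true, hj]
      have h4 : Function.IsPeriodicPt (HREL_pi n w) j y := by
        show (⇑(HREL_pi n w))^[j] y = y
        rw [Equiv.Perm.iterate_eq_pow]
        exact h3
      obtain ⟨m, hm⟩ := h4.minimalPeriod_dvd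
      rw [← ha] at hm
      have h5 : ∀ m, (w ^ (a * m)).1 (y, true) = (y, true) := by
        intro m
        induction m with
        | zero => simp
        | succ m ih =>
          rw [Nat.mul_succ, pow_add]
          show (w ^ (a * m)).1 ((w ^ a).1 (y, true)) = _
          rw [hyc, ih]
      rw [hm, h5 m] at hj
      simp at hj
    simp [this]

/-! ### assembly -/

open Classical in
theorem CLS_build (w : W n) (L : List (Fin n))
    (hnd : (L.flatMap (CLS_o (HREL_pi n w))).Nodup)
    (hall : ∀ y, y ∈ L.flatMap (CLS_o (HREL_pi n w))) :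
    (L.map (Function.minimalPeriod (HREL_pi n w))).sum = n ∧
    ∃ u : W n, CLS_B ((u⁻¹ * w * u : W n) : Equiv.Perm (Fin n × Bool)) 0
      (L.map fun x => (Function.minimalPeriod (HREL_pi n w) x, decide (¬ CLS_N w x))) := by
  set per : Fin n → ℕ := Function.minimalPeriod (HREL_pi n w) with hper
  set F : List (Fin n) → List (Fin n × Bool) := fun L =>
    L.flatMap (fun x => (List.range (per x)).map (fun j => (w ^ j).1 (x, true))) with hF
  have hFlen : ∀ L, (F L).length = (L.map per).sum := by
    intro L
    rw [hF]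
    simp [List.length_flatMap]
  have hFfst : ∀ L, (F L).map Prod.fst = L.flatMap (CLS_o (HREL_pi n w)) := by
    intro L
    rw [hF]
    simp only [List.map_flatMap, List.map_map]
    congr 1
    funext x
    unfold CLS_o
    apply List.map_congr_left
    intro j _
    exact CLS_pow w j x true
  have hlen : (F L).length = n := by
    have h1 : (L.flatMap (CLS_o (HREL_pi n w))).length = n := by
      rw [← List.toFinset_card_of_nodup hnd]
      have h2 : (L.flatMap (CLS_o (HREL_pi n w))).toFinset = Finset.univ := by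
        rw [Finset.eq_univ_iff_forall]
        intro y
        rw [List.mem_toFinset]
        exact hall y
      rw [h2, Finset.card_univ, Fintype.card_fin]
    have h2 := congrArg List.length (hFfst L)
    rw [List.length_map, h1] at h2
    exact h2
  refine ⟨by rw [← hFlen, hlen], ?_⟩
  set f : Fin n → Fin n × Bool := fun i => (F L)[i.val]'(by rw [hlen]; exact i.2) with hf
  have hf1 : ∀ i : Fin n, (F L)[i.val]? = some (f i) := by
    intro i
    rw [hf]
    exact List.getElem?_eq_getElem _
  have hfinj : ∀ i j : Fin n, (f i).1 = (f j).1 → i = j := by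
    intro i j h
    have h1 : ((F L).map Prod.fst).Nodup := by rw [hFfst]; exact hnd
    have h2 : ((F L).map Prod.fst)[i.val]'(by rw [List.length_map, hlen]; exact i.2) =
        ((F L).map Prod.fst)[j.val]'(by rw [List.length_map, hlen]; exact j.2) := by
      rw [List.getElem_map, List.getElem_map]
      exact h
    exact Fin.ext ((List.Nodup.getElem_inj_iff h1).1 h2)
  set U : Fin n × Bool → Fin n × Bool := fun x =>
    ((f x.1).1, if x.2 then (f x.1).2 else !(f x.1).2) with hU
  have hUinj : Function.Injective U := by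
    rintro ⟨i, a⟩ ⟨j, b⟩ h
    have h1 : (f i).1 = (f j).1 := by
      have := congrArg Prod.fst h
      simpa [hU] using this
    have h2 := hfinj i j h1
    subst h2
    have h3 : (if a then (f i).2 else !(f i).2) = if b then (f i).2 else !(f i).2 := by
      have := congrArg Prod.snd h
      simpa only [hU] using this
    refine Prod.ext rfl ?_
    show a = b
    revert h3
    cases a <;> cases b <;> cases (f i).2 <;> simp
  let u0 : Equiv.Perm (Fin n × Bool) := Equiv.ofBijective U (Finite.injective_iff_bijective.1 hUinj)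
  have hu0 : u0 ∈ W n := by
    rw [mem_W]
    rintro ⟨i, a⟩
    show U (i, !a) = ((U (i, a)).1, !(U (i, a)).2)
    rw [hU]
    cases a <;> simp
  let u : W n := ⟨u0, hu0⟩
  refine ⟨u, ?_⟩
  have hut : ∀ i, u.1 (i, true) = f i := by
    intro i
    show U (i, true) = f i
    rw [hU]
    simp
  have hkey : ∀ L1 x L2, L = L1 ++ x :: L2 → ∀ j < per x, ∀ i : Fin n,
      i.val = (L1.map per).sum + j → f i = (w ^ j).1 (x, true) := by
    intro L1 x L2 hL j hj i hi
    have h1 := hf1 i
    have h2 : F L = F L1 ++ ((List.range (per x)).map (fun j => (w ^ j).1 (x, true)) ++ F L2) := by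
      rw [hL, hF]
      simp [List.flatMap_append, List.flatMap_cons]
    rw [h2, hi, List.getElem?_append_right (by rw [hFlen]; omega), hFlen,
      Nat.add_sub_cancel_left, List.getElem?_append_left (by simpa using hj),
      List.getElem?_map, List.getElem?_range hj] at h1
    simpa using h1.symm
  set w' : W n := u⁻¹ * w * u with hw'
  have hinv : ∀ y, (u⁻¹ : W n).1 (u.1 y) = y := by
    intro y
    exact Equiv.symm_apply_apply u.1 y
  have hstep : ∀ (i i' : Fin n) (b : Bool), w.1 (f i) = u.1 (i', b) →
      ∀ y : Fin n × Bool, y.1 = i → w'.1 y = (i', if y.2 then b else !b) := by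
    intro i i' b h
    have h1 : w'.1 (i, true) = (i', b) := by
      show (u⁻¹ : W n).1 (w.1 (u.1 (i, true))) = (i', b)
      rw [hut, h, hinv]
    rintro ⟨y, c⟩ rfl
    cases c
    · simpa using CLS_ng w' y _ h1
    · simpa using h1
  have hmain : ∀ L2 L1, L = L1 ++ L2 → CLS_B w'.1 ((L1.map per).sum)
      (L2.map fun x => (per x, decide (¬ CLS_N w x))) := by
    intro L2
    induction L2 with
    | nil => intro L1 _; trivial
    | cons x L2 ih =>
      intro L1 hL
      have hpos : 0 < per x := CLS_per_pos _ x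
      have hle : (L1.map per).sum + per x ≤ n := by
        have h1 : (L.map per).sum = n := by rw [← hFlen, hlen]
        rw [hL, List.map_append, List.sum_append, List.map_cons, List.sum_cons] at h1
        omega
      refine ⟨?_, ?_, ?_⟩
      · intro y hy hy'
        simp only at hy'
        have h1 := hkey L1 x L2 hL (y.1.val - (L1.map per).sum) (by omega) y.1 (by omega)
        have h2 := hkey L1 x L2 hL (y.1.val - (L1.map per).sum + 1) (by omega)
          ⟨y.1.val + 1, by omega⟩ (by simp only; omega)
        have h3 : w.1 (f y.1) = u.1 (⟨y.1.val + 1, by omega⟩, true) := by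
          rw [hut, h2, h1, pow_succ']
          rfl
        have h4 := hstep _ _ _ h3 y rfl
        rw [h4]
        refine ⟨rfl, ?_⟩
        cases y.2 <;> simp
      · intro y hy hy'
        simp only at hy'
        have h1 := hkey L1 x L2 hL (per x - 1) (by omega) y.1 (by omega)
        have h2 := hkey L1 x L2 hL 0 hpos ⟨(L1.map per).sum, by omega⟩ (by simp)
        rw [pow_zero] at h2
        have h2' : f ⟨(L1.map per).sum, by omega⟩ = (x, true) := h2
        have h3 : w.1 (f y.1) = u.1 (⟨(L1.map per).sum, by omega⟩, decide (¬ CLS_N w x)) := by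
          rw [h1]
          have h5 : w.1 ((w ^ (per x - 1)).1 (x, true)) = (w ^ (per x)).1 (x, true) := by
            have h6 : w ^ (per x) = w * w ^ (per x - 1) := by
              rw [← pow_succ', Nat.sub_add_cancel hpos]
            rw [h6]
            rfl
          rw [h5, CLS_turn]
          by_cases hN : CLS_N w x
          · have e1 : decide (¬ CLS_N w x) = false := by simp [hN]
            rw [e1]
            have := CLS_ng u _ _ (hut ⟨(L1.map per).sum, by omega⟩)
            rw [this, h2']
            rfl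
          · have e1 : decide (¬ CLS_N w x) = true := by simp [hN]
            rw [e1, hut, h2']
        have h4 := hstep _ _ _ h3 y rfl
        rw [h4]
        refine ⟨rfl, ?_⟩
        simp only
        by_cases hN : CLS_N w x
        · simp only [hN, not_true_eq_false, decide_false]
          cases y.2 <;> simp
        · simp only [hN, not_false_eq_true, decide_true]
          cases y.2 <;> simp
      · have h1 := ih (L1 ++ [x]) (by rw [hL]; simp)
        rw [List.map_append, List.sum_append] at h1
        simpa using h1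
  have := hmain L [] (by simp)
  simpa using this

end CLSa

open Classical in
theorem CLS : CLS_stmt := by
  intro n w
  obtain ⟨Ln, a1, a2, a3, a4⟩ := CLS_orbits (HREL_pi n w) _ (Finset.univ.filter (CLS_N w)) rfl
    (by
      intro x hx
      rw [mem_filter] at hx ⊢
      exact ⟨mem_univ _, (CLS_N_iff w x).2 hx.2⟩)
  obtain ⟨Lp, b1, b2, b3, b4⟩ := CLS_orbits (HREL_pi n w) _
    (Finset.univ.filter (fun x => ¬ CLS_N w x)) rfl
    (by
      intro x hx
      rw [mem_filter] at hx ⊢
      exact ⟨mem_univ _, fun h => hx.2 ((CLS_N_iff w x).1 h)⟩)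
  have hnd : ((Ln ++ Lp).flatMap (CLS_o (HREL_pi n w))).Nodup := by
    rw [List.flatMap_append, List.nodup_append]
    refine ⟨a3, b3, ?_⟩
    intro a ha b hb hab
    subst hab
    exact (mem_filter.1 ((b4 a).1 hb)).2 (mem_filter.1 ((a4 a).1 ha)).2
  have hall : ∀ y, y ∈ (Ln ++ Lp).flatMap (CLS_o (HREL_pi n w)) := by
    intro y
    rw [List.flatMap_append, List.mem_append, a4, b4, mem_filter, mem_filter]
    by_cases h : CLS_N w y
    · exact Or.inl ⟨mem_univ _, h⟩
    · exact Or.inr ⟨mem_univ _, h⟩
  obtain ⟨hsum, u, hu⟩ := CLS_build w (Ln ++ Lp) hnd hall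
  have hTyp : Typ n (Ln.map (Function.minimalPeriod (HREL_pi n w)))
      (Lp.map (Function.minimalPeriod (HREL_pi n w))) := by
    refine ⟨?_, ?_, ?_, ?_⟩
    · intro a ha
      obtain ⟨x, -, rfl⟩ := List.mem_map.1 ha
      exact CLS_per_pos _ x
    · rw [List.pairwise_map]
      exact a2
    · intro a ha
      obtain ⟨x, -, rfl⟩ := List.mem_map.1 ha
      exact CLS_per_pos _ x
    · rw [← List.sum_append, ← List.map_append]
      exact hsum
  refine ⟨_, _, hTyp, ?_⟩
  have hl : ((Ln ++ Lp).map fun x => (Function.minimalPeriod (HREL_pi n w) x,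
      decide (¬ CLS_N w x))) =
      (Ln.map (Function.minimalPeriod (HREL_pi n w))).map (fun a => (a, false)) ++
      (Lp.map (Function.minimalPeriod (HREL_pi n w))).map (fun a => (a, true)) := by
    rw [List.map_append, List.map_map, List.map_map]
    congr 1
    · apply List.map_congr_left
      intro x hx
      have := (mem_filter.1 (a1 x hx)).2
      simp [this]
    · apply List.map_congr_left
      intro x hx
      have := (mem_filter.1 (b1 x hx)).2
      simp [this]
  rw [hl] at hu
  have hs := CLS_std2 _ _ hTyp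
  have heq : ((u⁻¹ * w * u : W n) : Equiv.Perm (Fin n × Bool)) =
      ((std2 n (Ln.map (Function.minimalPeriod (HREL_pi n w)))
        (Lp.map (Function.minimalPeriod (HREL_pi n w))) : W n) : Equiv.Perm (Fin n × Bool)) := by
    apply Equiv.ext
    intro x
    apply CLS_unique _ _ _ 0 hu hs x (Nat.zero_le _)
    have h1 : ((Ln.map (Function.minimalPeriod (HREL_pi n w))).map (fun a => (a, false)) ++
        (Lp.map (Function.minimalPeriod (HREL_pi n w))).map (fun a => (a, true))).map Prod.fst =
        (Ln ++ Lp).map (Function.minimalPeriod (HREL_pi n w)) := by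
      rw [List.map_append, List.map_map, List.map_map, List.map_map, List.map_map, List.map_append]
      rfl
    rw [h1, hsum, Nat.zero_add]
    exact x.1.2
  rw [isConj_iff]
  refine ⟨u⁻¹, ?_⟩
  rw [inv_inv]
  exact Subtype.ext heq

end Pool.Agent.helper27.PC
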